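import Pool.Agent.H59.HR.Stm

/-! Part AD: the ADHM chart. -/

set_option linter.all false
set_option autoImplicit false

open Polynomial

namespace HR.K42

theorem Wmat_map {A B : Type*} [CommRing A] [CommRing B] (φ : A →+* B) {n : ℕ}
    (X Y : Matrix (Fin n) (Fin n) A) (v : Fin n → A) (pq : Fin n → ℕ × ℕ) :
    (Wmat X Y v pq).map φ = Wmat (X.map φ) (Y.map φ) (fun a => φ (v a)) pq := by
  ext a b
  simp only [Wmat, Matrix.map_apply, Matrix.of_apply, RingHom.map_mulVec]
  rw [Matrix.map_mul, Matrix.map_pow, Matrix.map_pow]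
  rfl

/-- the variables `X_ab`, `Y_ab`, `v_a`, `j_a`, `u` -/
abbrev Var (n : ℕ) : Type := (Fin n × Fin n) ⊕ ((Fin n × Fin n) ⊕ (Fin n ⊕ (Fin n ⊕ Unit)))

theorem card_var (n : ℕ) : Fintype.card (Var n) = n ^ 2 + 2 * n + (n ^ 2 + 1) := by
  simp only [Var, Fintype.card_sum, Fintype.card_prod, Fintype.card_fin, Fintype.card_unit]
  ring

section
variable (n : ℕ)

noncomputable def XR : Matrix (Fin n) (Fin n) (MvPolynomial (Var n) ℂ) :=
  Matrix.of fun a b => MvPolynomial.X (Sum.inl (a, b))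
noncomputable def YR : Matrix (Fin n) (Fin n) (MvPolynomial (Var n) ℂ) :=
  Matrix.of fun a b => MvPolynomial.X (Sum.inr (Sum.inl (a, b)))
noncomputable def vR : Fin n → MvPolynomial (Var n) ℂ :=
  fun a => MvPolynomial.X (Sum.inr (Sum.inr (Sum.inl a)))
noncomputable def jR : Fin n → MvPolynomial (Var n) ℂ :=
  fun a => MvPolynomial.X (Sum.inr (Sum.inr (Sum.inr (Sum.inl a))))
noncomputable def uR : MvPolynomial (Var n) ℂ :=
  MvPolynomial.X (Sum.inr (Sum.inr (Sum.inr (Sum.inr ()))))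

/-- the equations -/
noncomputable def eqs (pq : Fin n → ℕ × ℕ) : Option (Fin n × Fin n) → MvPolynomial (Var n) ℂ
  | none => uR n * (Wmat (XR n) (YR n) (vR n) pq).det - 1
  | some (a, b) => (XR n * YR n - YR n * XR n + Matrix.vecMulVec (vR n) (jR n)) a b

end

theorem AD (hK2 : S_K2) (hJZ : S_JZ) : S_AD := by
  intro n X₀ Y₀ v₀ pq hcomm hdet
  classical
  -- the point
  let pt : Var n → ℂ := fun s => match s with
    | Sum.inl (a, b) => X₀ a b
    | Sum.inr (Sum.inl (a, b)) => Y₀ a b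
    | Sum.inr (Sum.inr (Sum.inl a)) => v₀ a
    | Sum.inr (Sum.inr (Sum.inr (Sum.inl a))) => 0
    | Sum.inr (Sum.inr (Sum.inr (Sum.inr _))) => ((Wmat X₀ Y₀ v₀ pq).det)⁻¹
  let ev0 : MvPolynomial (Var n) ℂ →ₐ[ℂ] ℂ := MvPolynomial.aeval pt
  have hX : (XR n).map ev0 = X₀ := by
    ext a b; simp [XR, ev0, pt]
  have hY : (YR n).map ev0 = Y₀ := by
    ext a b; simp [YR, ev0, pt]
  have hv : (fun a => ev0 (vR n a)) = v₀ := by
    funext a; simp [vR, ev0, pt]
  have hj : (fun a => ev0 (jR n a)) = 0 := by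
    funext a; simp [jR, ev0, pt]
  have hu : ev0 (uR n) = ((Wmat X₀ Y₀ v₀ pq).det)⁻¹ := by
    simp [uR, ev0, pt]
  have hP : (RingHom.ker (ev0 : MvPolynomial (Var n) ℂ →+* ℂ)).IsPrime := RingHom.ker_isPrime _
  have hmem : ∀ o, eqs n pq o ∈ RingHom.ker (ev0 : MvPolynomial (Var n) ℂ →+* ℂ) := by
    intro o
    rw [RingHom.mem_ker]
    rcases o with _ | ⟨a, b⟩
    · simp only [eqs, map_sub, map_mul, map_one]
      have h1 : (ev0 : MvPolynomial (Var n) ℂ →+* ℂ) (Wmat (XR n) (YR n) (vR n) pq).det =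
          (Wmat X₀ Y₀ v₀ pq).det := by
        rw [RingHom.map_det, RingHom.mapMatrix_apply, Wmat_map]
        have e1 : (XR n).map (ev0 : MvPolynomial (Var n) ℂ →+* ℂ) = X₀ := hX
        have e2 : (YR n).map (ev0 : MvPolynomial (Var n) ℂ →+* ℂ) = Y₀ := hY
        have e3 : (fun a => (ev0 : MvPolynomial (Var n) ℂ →+* ℂ) (vR n a)) = v₀ := hv
        rw [e1, e2, e3]
      have h2 : (ev0 : MvPolynomial (Var n) ℂ →+* ℂ) (uR n) = ((Wmat X₀ Y₀ v₀ pq).det)⁻¹ := hu
      rw [h1, h2, inv_mul_cancel₀ hdet, sub_self]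
    · have h1 : ((XR n * YR n - YR n * XR n + Matrix.vecMulVec (vR n) (jR n)).map
          (ev0 : MvPolynomial (Var n) ℂ →+* ℂ)) = 0 := by
        have e1 : (XR n).map (ev0 : MvPolynomial (Var n) ℂ →+* ℂ) = X₀ := hX
        have e2 : (YR n).map (ev0 : MvPolynomial (Var n) ℂ →+* ℂ) = Y₀ := hY
        have e4 : (Matrix.vecMulVec (vR n) (jR n)).map (ev0 : MvPolynomial (Var n) ℂ →+* ℂ) = 0 := by
          ext a b
          simp only [Matrix.map_apply, Matrix.vecMulVec_apply, map_mul, Matrix.zero_apply]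
          have := congrFun hj b
          simp only [Pi.zero_apply] at this
          rw [show (ev0 : MvPolynomial (Var n) ℂ →+* ℂ) (jR n b) = 0 from this, mul_zero]
        rw [Matrix.map_add _ (map_add _), Matrix.map_sub _ (map_sub _), Matrix.map_mul,
          Matrix.map_mul, e1, e2, e4, hcomm]
        simp
      exact congrFun (congrFun h1 a) b
  -- K2
  have hcardE : Fintype.card (Option (Fin n × Fin n)) = n ^ 2 + 1 := by
    simp [Fintype.card_option]; ring
  let e1 : Fin (n ^ 2 + 1) ≃ Option (Fin n × Fin n) := (Fintype.equivFinOfCardEq hcardE).symm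
  let e2 : Fin (n ^ 2 + 2 * n + (n ^ 2 + 1)) ≃ Var n :=
    (Fintype.equivFinOfCardEq (card_var n)).symm
  have hTD : TDge (MvPolynomial (Var n) ℂ) (n ^ 2 + 2 * n + (n ^ 2 + 1)) :=
    ⟨MvPolynomial.X ∘ e2, (MvPolynomial.algebraicIndependent_X (Var n) ℂ).comp e2 e2.injective⟩
  obtain ⟨Q, hQ, hfQ, hQP, hTQ⟩ := hK2 (n ^ 2 + 1) (MvPolynomial (Var n) ℂ)
    (RingHom.ker (ev0 : MvPolynomial (Var n) ℂ →+* ℂ)) (fun i => eqs n pq (e1 i))
    (fun i => hmem _) (n ^ 2 + 2 * n) hTD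
  have hfQ' : ∀ o, eqs n pq o ∈ Q := fun o => by
    have := hfQ (e1.symm o)
    rwa [Equiv.apply_symm_apply] at this
  haveI := hQ
  let φ : MvPolynomial (Var n) ℂ →ₐ[ℂ] (MvPolynomial (Var n) ℂ ⧸ Q) := Ideal.Quotient.mkₐ ℂ Q
  have hφ : ∀ p ∈ Q, φ p = 0 := fun p hp => Ideal.Quotient.eq_zero_iff_mem.2 hp
  let ε : (MvPolynomial (Var n) ℂ ⧸ Q) →ₐ[ℂ] ℂ := Ideal.Quotient.liftₐ Q ev0 (fun a ha => hQP ha)
  have hε : ∀ p, ε (φ p) = ev0 p := fun p => rfl
  let X := (XR n).map φ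
  let Y := (YR n).map φ
  let v := fun a => φ (vR n a)
  let j := fun a => φ (jR n a)
  have hrel : X * Y - Y * X + Matrix.vecMulVec v j = 0 := by
    have h1 : ((XR n * YR n - YR n * XR n + Matrix.vecMulVec (vR n) (jR n)).map
          (φ : MvPolynomial (Var n) ℂ →+* (MvPolynomial (Var n) ℂ ⧸ Q))) = 0 := by
      ext a b
      exact hφ _ (hfQ' (some (a, b)))
    rw [Matrix.map_add _ (map_add _), Matrix.map_sub _ (map_sub _), Matrix.map_mul,
          Matrix.map_mul] at h1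
    have e4 : (Matrix.vecMulVec (vR n) (jR n)).map (φ : MvPolynomial (Var n) ℂ →+* (MvPolynomial (Var n) ℂ ⧸ Q)) =
        Matrix.vecMulVec v j := by
      ext a b
      simp only [Matrix.map_apply, Matrix.vecMulVec_apply, map_mul]
      rfl
    rw [e4] at h1
    exact h1
  have hudet : φ (uR n) * (Wmat X Y v pq).det = 1 := by
    have h1 := hφ _ (hfQ' none)
    simp only [eqs, map_sub, map_mul, map_one] at h1
    have h2 : φ (Wmat (XR n) (YR n) (vR n) pq).det = (Wmat X Y v pq).det := by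
      have := RingHom.map_det (φ : MvPolynomial (Var n) ℂ →+* (MvPolynomial (Var n) ℂ ⧸ Q)) (Wmat (XR n) (YR n) (vR n) pq)
      rw [RingHom.mapMatrix_apply, Wmat_map] at this
      exact this
    rw [h2] at h1
    exact sub_eq_zero.1 h1
  -- j = 0
  have hj0 : j = 0 := by
    let K := FractionRing (MvPolynomial (Var n) ℂ ⧸ Q)
    let ι : (MvPolynomial (Var n) ℂ ⧸ Q) →+* K := algebraMap _ _
    have hι : Function.Injective ι := IsFractionRing.injective _ _
    haveI : CharZero (MvPolynomial (Var n) ℂ ⧸ Q) := algebraRat.charZero _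
    haveI : CharZero K := charZero_of_injective_ringHom hι
    have h1 : X.map ι * Y.map ι - Y.map ι * X.map ι +
        Matrix.vecMulVec (fun a => ι (v a)) (fun a => ι (j a)) = 0 := by
      have h2 : (X * Y - Y * X + Matrix.vecMulVec v j).map ι = (0 : Matrix (Fin n) (Fin n) _).map ι := by
        rw [hrel]
      rw [Matrix.map_add _ (map_add _), Matrix.map_sub _ (map_sub _), Matrix.map_mul,
          Matrix.map_mul] at h2
      have e4 : (Matrix.vecMulVec v j).map ι =
          Matrix.vecMulVec (fun a => ι (v a)) (fun a => ι (j a)) := by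
        ext a b
        simp only [Matrix.map_apply, Matrix.vecMulVec_apply, map_mul]
      rw [e4] at h2
      rw [h2]
      ext a b
      simp
    have h3 : Submodule.span K {w | ∃ p q : ℕ, w = (X.map ι ^ p * Y.map ι ^ q).mulVec
        (fun a => ι (v a))} = ⊤ := by
      have hdetK : IsUnit (Wmat (X.map ι) (Y.map ι) (fun a => ι (v a)) pq).det := by
        rw [← Wmat_map, ← RingHom.mapMatrix_apply, ← RingHom.map_det]
        exact IsUnit.map ι (IsUnit.of_mul_eq_one _ (by rw [mul_comm]; exact hudet))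
      rw [eq_top_iff]
      intro w _
      obtain ⟨c, hc⟩ := (Matrix.mulVec_surjective_iff_isUnit.2
        ((Matrix.isUnit_iff_isUnit_det _).2 hdetK)) w
      have h4 : w = ∑ b, c b • ((X.map ι ^ (pq b).1 * Y.map ι ^ (pq b).2).mulVec
          (fun a => ι (v a))) := by
        rw [← hc]
        ext a
        simp only [Matrix.mulVec, dotProduct, Finset.sum_apply, Pi.smul_apply, smul_eq_mul]
        refine Finset.sum_congr rfl fun b _ => ?_
        rw [mul_comm]
        rfl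
      rw [h4]
      exact Submodule.sum_mem _ fun b _ => Submodule.smul_mem _ _
        (Submodule.subset_span ⟨_, _, rfl⟩)
    have h5 := hJZ K n (X.map ι) (Y.map ι) (fun a => ι (v a)) (fun a => ι (j a)) h1 h3
    funext a
    exact hι (by rw [congrFun h5 a]; simp)
  refine ⟨MvPolynomial (Var n) ℂ ⧸ Q, inferInstance, Ideal.Quotient.isDomain Q, inferInstance, ε,
    X, Y, v, φ (uR n), ?_, ?_, ?_, ?_, hudet, hTQ, ?_⟩
  · rw [hj0] at hrel
    have : Matrix.vecMulVec v (0 : Fin n → (MvPolynomial (Var n) ℂ ⧸ Q)) = 0 := by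
      ext a b; simp [Matrix.vecMulVec_apply]
    rw [this, add_zero] at hrel
    exact sub_eq_zero.1 hrel
  · rw [← hX]; ext a b; exact hε _
  · rw [← hY]; ext a b; exact hε _
  · intro a
    rw [← hv]
    exact hε _
  · rw [eq_top_iff]
    have h1 : (⊤ : Subalgebra ℂ (MvPolynomial (Var n) ℂ ⧸ Q)) = (⊤ : Subalgebra ℂ
        (MvPolynomial (Var n) ℂ)).map φ := by
      rw [Algebra.map_top, (AlgHom.range_eq_top _).2 (Ideal.Quotient.mkₐ_surjective ℂ Q)]
    rw [h1, ← MvPolynomial.adjoin_range_X, AlgHom.map_adjoin, Algebra.adjoin_le_iff]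
    rintro _ ⟨_, ⟨s, rfl⟩, rfl⟩
    rcases s with ⟨a, b⟩ | ⟨a, b⟩ | a | a | ⟨⟩
    · exact Algebra.subset_adjoin (Or.inl (Or.inl (Or.inl ⟨a, b, rfl⟩)))
    · exact Algebra.subset_adjoin (Or.inl (Or.inl (Or.inr ⟨a, b, rfl⟩)))
    · exact Algebra.subset_adjoin (Or.inl (Or.inr ⟨a, rfl⟩))
    · have : φ (MvPolynomial.X (Sum.inr (Sum.inr (Sum.inr (Sum.inl a))))) = 0 := congrFun hj0 a
      rw [this]
      exact Subalgebra.zero_mem _
    · exact Algebra.subset_adjoin (Or.inr rfl)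

end HR.K42
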