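import Pool.Agent.H59.HR.Stm

/-! Parts KA, K1, K2: Krull's principal ideal theorem for affine domains over `ℂ`. -/

set_option linter.all false
set_option autoImplicit false

open Polynomial

namespace HR.K42

theorem TDge.of_hom {A B : Type} [CommRing A] [CommRing B] [Algebra ℂ A] [Algebra ℂ B]
    (φ : A →ₐ[ℂ] B) (hφ : Function.Surjective φ) {d : ℕ} (h : TDge B d) : TDge A d := by
  obtain ⟨x, hx⟩ := h
  choose y hy using fun i => hφ (x i)
  refine ⟨y, AlgebraicIndependent.of_comp φ ?_⟩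
  have : (φ ∘ y) = x := funext hy
  rw [this]
  exact hx

theorem TDge.map {A B : Type} [CommRing A] [CommRing B] [Algebra ℂ A] [Algebra ℂ B]
    (φ : A →ₐ[ℂ] B) (hφ : Function.Injective φ) {d : ℕ} (h : TDge A d) : TDge B d := by
  obtain ⟨x, hx⟩ := h
  exact ⟨φ ∘ x, hx.map' hφ⟩

theorem TDge.mono {A : Type} [CommRing A] [Algebra ℂ A] {d e : ℕ} (hde : d ≤ e) (h : TDge A e) :
    TDge A d := by
  obtain ⟨x, hx⟩ := h
  exact ⟨x ∘ Fin.castLE hde, hx.comp _ (Fin.castLE_injective hde)⟩

theorem tdge_of_forall (s : ℕ) (Q : Ideal (MvPolynomial (Fin (s + 1)) ℂ)) (i : Fin (s + 1))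
    (h : ∀ p : MvPolynomial (Fin s) ℂ, MvPolynomial.rename i.succAbove p ∈ Q → p = 0) :
    TDge (MvPolynomial (Fin (s + 1)) ℂ ⧸ Q) s := by
  refine ⟨fun j => Ideal.Quotient.mk Q (MvPolynomial.X (i.succAbove j)), ?_⟩
  rw [algebraicIndependent_iff]
  intro p hp
  apply h
  rw [← Ideal.Quotient.eq_zero_iff_mem, ← hp]
  have : (MvPolynomial.aeval (fun j => Ideal.Quotient.mk Q (MvPolynomial.X (i.succAbove j))) :
      MvPolynomial (Fin s) ℂ →ₐ[ℂ] _) =
      (Ideal.Quotient.mkₐ ℂ Q).comp (MvPolynomial.rename i.succAbove) := by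
    apply MvPolynomial.algHom_ext
    intro j
    simp
  rw [this]
  rfl

theorem KA : S_KA := by
  intro s Q hQ hmin
  by_cases hbot : Q = ⊥
  · refine tdge_of_forall s Q 0 fun p hp => ?_
    rw [hbot, Ideal.mem_bot] at hp
    exact MvPolynomial.rename_injective _ (Fin.succAbove_right_injective) (by rw [hp, map_zero])
  · obtain ⟨g, hgQ, hg⟩ := hQ.exists_mem_prime_of_ne_bot hbot
    have hspan : Ideal.span {g} = Q := by
      have h1 : (Ideal.span {g}).IsPrime := (Ideal.span_singleton_prime hg.ne_zero).2 hg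
      rcases hmin (Ideal.span {g}) h1 (by
        rw [Ideal.span_singleton_le_iff_mem]; exact hgQ) with h | h
      · exact absurd (Ideal.span_singleton_eq_bot.1 h) hg.ne_zero
      · exact h
    obtain ⟨i, hi⟩ : ∃ i, i ∈ g.vars := by
      by_contra hne
      push Not at hne
      have h0 : g.vars = ∅ := Finset.eq_empty_of_forall_notMem hne
      rw [MvPolynomial.vars_eq_empty_iff_eq_C] at h0
      apply hg.not_unit
      rw [h0]
      refine (IsUnit.mk0 _ ?_).map MvPolynomial.C
      intro hc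
      rw [hc, map_zero] at h0
      exact hg.ne_zero h0
    refine tdge_of_forall s Q i fun p hp => ?_
    rw [← hspan, Ideal.mem_span_singleton] at hp
    obtain ⟨q, hq⟩ := hp
    by_contra hp0
    have hq0 : q ≠ 0 := by
      rintro rfl
      rw [mul_zero] at hq
      exact hp0 (MvPolynomial.rename_injective _ (Fin.succAbove_right_injective)
        (by rw [hq, map_zero]))
    have h1 := MvPolynomial.degreeOf_mul_eq (n := i) hg.ne_zero hq0
    rw [← hq] at h1
    have h2 : MvPolynomial.degreeOf i (MvPolynomial.rename i.succAbove p) = 0 := by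
      by_contra hne
      have hmem := MvPolynomial.mem_vars_iff_degreeOf_ne_zero.2 hne
      have := MvPolynomial.vars_rename i.succAbove p hmem
      simp at this
    have h3 : MvPolynomial.degreeOf i g ≠ 0 := MvPolynomial.mem_vars_iff_degreeOf_ne_zero.1 hi
    omega

theorem K1 (hKA : S_KA) : S_K1 := by
  intro A _ _ _ _ P _ f hf d hd
  by_cases hf0 : f = 0
  · refine ⟨⊥, Ideal.isPrime_bot, by rw [hf0]; exact Ideal.zero_mem _, bot_le, ?_⟩
    refine TDge.mono (Nat.le_succ d) (TDge.map (Ideal.Quotient.mkₐ ℂ (⊥ : Ideal A)) ?_ hd)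
    intro a b hab
    have : a - b ∈ (⊥ : Ideal A) := (Ideal.Quotient.eq).1 hab
    exact sub_eq_zero.1 (Ideal.mem_bot.1 this)
  have hNoeth : IsNoetherianRing A := Algebra.FiniteType.isNoetherianRing ℂ A
  obtain ⟨Q, hQmin, hQP⟩ := Ideal.exists_minimalPrimes_le (I := Ideal.span {f}) (J := P)
    (by rw [Ideal.span_singleton_le_iff_mem]; exact hf)
  have hQprime : Q.IsPrime := hQmin.isPrime
  have hQh : Q.height ≤ 1 := Ideal.height_le_one_of_isPrincipal_of_mem_minimalPrimes _ Q hQmin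
  have hfQ : f ∈ Q := by
    have := hQmin.1.2
    rwa [Ideal.span_singleton_le_iff_mem] at this
  refine ⟨Q, hQprime, hfQ, hQP, ?_⟩
  obtain ⟨s, g, hginj, hgfin⟩ := exists_finite_inj_algHom_of_fg ℂ A
  -- transcendence degree
  letI : Algebra (MvPolynomial (Fin s) ℂ) A := g.toRingHom.toAlgebra
  haveI : IsScalarTower ℂ (MvPolynomial (Fin s) ℂ) A := IsScalarTower.of_algebraMap_eq fun r => by
    exact (g.commutes r).symm
  haveI : Module.Finite (MvPolynomial (Fin s) ℂ) A := hgfin
  haveI : FaithfulSMul (MvPolynomial (Fin s) ℂ) A :=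
    (faithfulSMul_iff_algebraMap_injective _ _).2 hginj
  haveI : Algebra.IsIntegral (MvPolynomial (Fin s) ℂ) A := Algebra.IsIntegral.of_finite _ _
  have htr : Algebra.trdeg ℂ A = s := by
    have h0 : Algebra.trdeg (MvPolynomial (Fin s) ℂ) A = 0 := trdeg_eq_zero
    rw [← trdeg_add_eq ℂ (MvPolynomial (Fin s) ℂ) (A := A), h0, MvPolynomial.trdeg_of_isDomain]
    simp
  have hds : d + 1 ≤ s := by
    obtain ⟨x, hx⟩ := hd
    have := hx.cardinalMk_le_trdeg
    rw [htr] at this
    simpa using this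
  obtain ⟨s', rfl⟩ : ∃ s', s = s' + 1 := ⟨s - 1, by omega⟩
  let q : Ideal (MvPolynomial (Fin (s' + 1)) ℂ) := Q.under _
  have hq : q.IsPrime := inferInstance
  have hqmin : ∀ Q' : Ideal (MvPolynomial (Fin (s' + 1)) ℂ), Q'.IsPrime → Q' ≤ q →
      Q' = ⊥ ∨ Q' = q := by
    intro Q' hQ' hle
    rcases hle.lt_or_eq with hlt | heq
    · left
      obtain ⟨R, hRQ, hR, hRover⟩ := Ideal.exists_ideal_lt_liesOver_of_lt (p := Q') (q := q) Q hlt
      have hRbot : R = ⊥ := by
        by_contra hne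
        have h1 : (⊥ : Ideal A) < R := bot_lt_iff_ne_bot.2 hne
        haveI : (⊥ : Ideal A).IsPrime := Ideal.isPrime_bot
        have hfinR : R.FiniteHeight := Ideal.finiteHeight_of_isNoetherianRing R
        have h2 := Ideal.height_strict_mono_of_isPrime_of_isPrime h1
        have h3 := Ideal.height_strict_mono_of_isPrime_of_isPrime hRQ
        have h4 : (1 : ℕ∞) ≤ R.height := Order.one_le_iff_pos.2 (lt_of_le_of_lt zero_le h2)
        exact absurd (lt_of_le_of_lt h4 h3) (not_lt.2 hQh)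
      rw [hRover.over, hRbot]
      ext z
      simp only [Ideal.under_def, Ideal.mem_comap, Ideal.mem_bot]
      constructor
      · intro hz
        exact hginj (by rw [map_zero]; exact hz)
      · rintro rfl
        exact map_zero _
    · exact Or.inr heq
  have hT := hKA s' q hq hqmin
  refine TDge.mono (by omega : d ≤ s') (TDge.map (Ideal.quotientMapₐ Q g (le_refl _)) ?_ hT)
  exact Ideal.quotientMap_injective

theorem K2 (hK1 : S_K1) : S_K2 := by
  intro m
  induction m with
  | zero =>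
    intro A _ _ _ _ P _ f hf d hd
    refine ⟨⊥, Ideal.isPrime_bot, fun i => i.elim0, bot_le, ?_⟩
    refine TDge.map (Ideal.Quotient.mkₐ ℂ (⊥ : Ideal A)) ?_ hd
    intro a b hab
    have : a - b ∈ (⊥ : Ideal A) := (Ideal.Quotient.eq).1 hab
    exact sub_eq_zero.1 (Ideal.mem_bot.1 this)
  | succ m ih =>
    intro A _ _ _ _ P _ f hf d hd
    obtain ⟨Q₁, hQ₁, hf₁, hle₁, hT₁⟩ := ih A P (fun i => f i.castSucc) (fun i => hf _) (d + 1)
      (by rwa [show d + 1 + m = d + (m + 1) by ring])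
    haveI := hQ₁
    haveI : IsDomain (A ⧸ Q₁) := Ideal.Quotient.isDomain Q₁
    have hker : RingHom.ker (Ideal.Quotient.mk Q₁) ≤ P := by rwa [Ideal.mk_ker]
    haveI : (P.map (Ideal.Quotient.mk Q₁)).IsPrime :=
      Ideal.map_isPrime_of_surjective Ideal.Quotient.mk_surjective hker
    obtain ⟨Q₂, hQ₂, hf₂, hle₂, hT₂⟩ := hK1 (A ⧸ Q₁) (P.map (Ideal.Quotient.mk Q₁))
      (Ideal.Quotient.mk Q₁ (f (Fin.last m))) (Ideal.mem_map_of_mem _ (hf _)) d hT₁
    refine ⟨Q₂.comap (Ideal.Quotient.mk Q₁), Ideal.comap_isPrime _ _, ?_, ?_, ?_⟩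
    · intro i
      refine Fin.lastCases ?_ (fun j => ?_) i
      · exact hf₂
      · rw [Ideal.mem_comap]
        rw [Ideal.Quotient.eq_zero_iff_mem.2 (hf₁ j)]
        exact Ideal.zero_mem _
    · intro a ha
      rw [Ideal.mem_comap] at ha
      have h1 := hle₂ ha
      rw [Ideal.mem_map_iff_of_surjective _ Ideal.Quotient.mk_surjective] at h1
      obtain ⟨b, hb, hba⟩ := h1
      have h2 : b - a ∈ Q₁ := (Ideal.Quotient.eq).1 hba
      have : a = b - (b - a) := by ring
      rw [this]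
      exact P.sub_mem hb (hle₁ h2)
    · refine TDge.of_hom (Ideal.quotientMapₐ Q₂ (Ideal.Quotient.mkₐ ℂ Q₁) (le_refl _)) ?_ hT₂
      intro z
      obtain ⟨y, rfl⟩ := Ideal.Quotient.mk_surjective z
      obtain ⟨a, rfl⟩ := Ideal.Quotient.mk_surjective y
      exact ⟨Ideal.Quotient.mk _ a, rfl⟩

end HR.K42
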