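import Pool.Agent.H59.HR.Stm

/-! Part TB: the transcendence degree bound. -/

set_option linter.all false
set_option autoImplicit false

open Polynomial

namespace HR.K42

theorem pow_mulVecLin {L : Type*} [Field L] {n : ℕ} (X : Matrix (Fin n) (Fin n) L) (k : ℕ) :
    X.mulVecLin ^ k = (X ^ k).mulVecLin := by
  induction k with
  | zero => rw [pow_zero, pow_zero, Matrix.mulVecLin_one]; rfl
  | succ k ih => rw [pow_succ, pow_succ, ih, Matrix.mulVecLin_mul]; rfl

/-- matrices with entries in an intermediate field -/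
theorem exists_map {L : Type} [Field L] [Algebra ℂ L] (F : IntermediateField ℂ L) {m n : ℕ}
    (M : Matrix (Fin m) (Fin n) L) (h : ∀ a b, M a b ∈ F) :
    ∃ M' : Matrix (Fin m) (Fin n) F, M'.map (algebraMap F L) = M :=
  ⟨Matrix.of fun a b => ⟨M a b, h a b⟩, by ext a b; rfl⟩

theorem trdeg_le_card {L : Type} [Field L] [Algebra ℂ L] (S : Finset L)
    (hS : IntermediateField.adjoin ℂ (S : Set L) = ⊤) {d : ℕ} (hd : TDge L d) : d ≤ S.card := by
  haveI : Algebra.IsAlgebraic (Algebra.adjoin ℂ (S : Set L)) L := by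
    constructor
    intro x
    have hx : x ∈ IntermediateField.adjoin ℂ (S : Set L) := by rw [hS]; exact trivial
    rw [IntermediateField.mem_adjoin_iff_div] at hx
    obtain ⟨r, hr, s, hs, rfl⟩ := hx
    have h1 : IsAlgebraic (Algebra.adjoin ℂ (S : Set L)) r :=
      isAlgebraic_algebraMap (A := L) (⟨r, hr⟩ : Algebra.adjoin ℂ (S : Set L))
    have h2 : IsAlgebraic (Algebra.adjoin ℂ (S : Set L)) s :=
      isAlgebraic_algebraMap (A := L) (⟨s, hs⟩ : Algebra.adjoin ℂ (S : Set L))
    rw [div_eq_mul_inv]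
    exact h1.mul h2.inv
  have h1 := Algebra.IsAlgebraic.trdeg_le_cardinalMk ℂ (S : Set L)
  obtain ⟨x, hx⟩ := hd
  have h2 := hx.cardinalMk_le_trdeg.trans h1
  simpa using h2

theorem TB (hFD : S_FD) : S_TB := by
  intro L _ _ n X Y v hXY hX hY hspan hadj d hd
  classical
  have hXY' : X.mulVecLin * Y.mulVecLin = Y.mulVecLin * X.mulVecLin := by
    have h1 : X.mulVecLin * Y.mulVecLin = (X * Y).mulVecLin := (Matrix.mulVecLin_mul X Y).symm
    have h2 : Y.mulVecLin * X.mulVecLin = (Y * X).mulVecLin := (Matrix.mulVecLin_mul Y X).symm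
    rw [h1, h2, hXY]
  have hnil : ∀ Z : Matrix (Fin n) (Fin n) L, IsNilpotent Z → IsNilpotent Z.mulVecLin := by
    rintro Z ⟨k, hk⟩
    refine ⟨k, ?_⟩
    rw [pow_mulVecLin, hk, Matrix.mulVecLin_zero]
  have hspan' : Submodule.span L {w | ∃ p q : ℕ, w = (X.mulVecLin ^ p) ((Y.mulVecLin ^ q) v)} =
      ⊤ := by
    rw [← hspan]
    congr 1
    ext w
    simp only [Set.mem_setOf_eq, pow_mulVecLin, Matrix.mulVecLin_apply, Matrix.mulVec_mulVec]
  obtain ⟨T, b, hT, hb⟩ := hFD L (Fin n → L) X.mulVecLin Y.mulVecLin v hXY' (hnil X hX) (hnil Y hY)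
    hspan'
  have hn : Module.finrank L (Fin n → L) = n := Module.finrank_fin_fun L
  let e : Fin (Module.finrank L (Fin n → L)) ≃ Fin n := finCongr hn
  let b' : Module.Basis (Fin n) L (Fin n → L) := b.reindex e
  have hb'X : ∀ i j, b'.repr (X.mulVecLin (b' i)) j ∈ IntermediateField.adjoin ℂ (T : Set L) := by
    intro i j
    have := (hb (e.symm i) (e.symm j)).1
    simpa [b'] using this
  have hb'Y : ∀ i j, b'.repr (Y.mulVecLin (b' i)) j ∈ IntermediateField.adjoin ℂ (T : Set L) := by
    intro i j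
    have := (hb (e.symm i) (e.symm j)).2.1
    simpa [b'] using this
  have hb'v : ∀ j, b'.repr v j ∈ IntermediateField.adjoin ℂ (T : Set L) := by
    intro j
    have := (hb (e.symm j) (e.symm j)).2.2
    simpa [b'] using this
  let U : Finset L := Finset.univ.image fun p : Fin n × Fin n => b' p.1 p.2
  have hU : U.card ≤ n ^ 2 := by
    refine Finset.card_image_le.trans ?_
    simp [sq]
  let F := IntermediateField.adjoin ℂ ((T ∪ U : Finset L) : Set L)
  have hTF : IntermediateField.adjoin ℂ (T : Set L) ≤ F :=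
    IntermediateField.adjoin.mono ℂ _ _ (by push_cast; exact Set.subset_union_left)
  have hUF : ∀ i a, b' i a ∈ F := by
    intro i a
    apply IntermediateField.subset_adjoin
    push_cast
    exact Or.inr (by simp only [U, Finset.coe_image]; exact ⟨(i, a), by simp, rfl⟩)
  let P : Matrix (Fin n) (Fin n) L := Matrix.of fun a i => b' i a
  obtain ⟨P', hP'⟩ := exists_map F P (fun a i => hUF i a)
  have hPv : ∀ c : Fin n → L, P.mulVec c = ∑ i, c i • b' i := by
    intro c
    ext a
    simp only [Matrix.mulVec, dotProduct, Finset.sum_apply, Pi.smul_apply, smul_eq_mul]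
    exact Finset.sum_congr rfl fun i _ => mul_comm _ _
  have hPunit : IsUnit P := by
    rw [← Matrix.mulVec_surjective_iff_isUnit]
    intro w
    refine ⟨fun i => b'.repr w i, ?_⟩
    rw [hPv]
    exact b'.sum_repr w
  have hP'det : P'.det ≠ 0 := by
    intro h0
    have h1 := (Matrix.isUnit_iff_isUnit_det P).1 hPunit
    rw [← hP', ← RingHom.mapMatrix_apply, ← RingHom.map_det, h0, map_zero] at h1
    exact not_isUnit_zero h1
  -- conjugation
  have hconj : ∀ Z : Matrix (Fin n) (Fin n) L,
      (∀ i j, b'.repr (Z.mulVecLin (b' i)) j ∈ F) → ∀ a c, Z a c ∈ F := by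
    intro Z hZ
    obtain ⟨B', hB'⟩ := exists_map F (Matrix.of fun j i => b'.repr (Z.mulVecLin (b' i)) j)
      (fun j i => hZ i j)
    have h1 : Z * P = P * B'.map (algebraMap F L) := by
      rw [hB']
      ext a i
      have h2 := congrFun (b'.sum_repr (Z.mulVecLin (b' i))) a
      have h3 : (Z * P) a i = (Z.mulVecLin (b' i)) a := by
        simp only [Matrix.mul_apply, Matrix.mulVecLin_apply, Matrix.mulVec, dotProduct]
        rfl
      rw [h3, ← h2]
      simp only [Matrix.mul_apply, Finset.sum_apply, Pi.smul_apply, smul_eq_mul, Matrix.of_apply]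
      exact Finset.sum_congr rfl fun j _ => mul_comm _ _
    have h4 : Z = (P' * B' * P'⁻¹).map (algebraMap F L) := by
      have h5 : P' * P'⁻¹ = 1 := Matrix.mul_nonsing_inv _ (isUnit_iff_ne_zero.2 hP'det)
      calc Z = Z * (P' * P'⁻¹).map (algebraMap F L) := by
              rw [h5, Matrix.map_one _ (map_zero _) (map_one _), mul_one]
        _ = Z * P * (P'⁻¹).map (algebraMap F L) := by
              rw [Matrix.map_mul, hP', mul_assoc]
        _ = _ := by rw [h1, Matrix.map_mul, Matrix.map_mul, hP']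
    intro a c
    rw [h4]
    exact ((P' * B' * P'⁻¹) a c).2
  have hXF := hconj X (fun i j => hTF (hb'X i j))
  have hYF := hconj Y (fun i j => hTF (hb'Y i j))
  have hvF : ∀ a, v a ∈ F := by
    intro a
    rw [← b'.sum_repr v]
    simp only [Finset.sum_apply, Pi.smul_apply, smul_eq_mul]
    exact sum_mem fun i _ => mul_mem (hTF (hb'v i)) (hUF i a)
  have hF : F = ⊤ := by
    rw [eq_top_iff, ← hadj, IntermediateField.adjoin_le_iff]
    rintro z ((⟨a, c, rfl⟩ | ⟨a, c, rfl⟩) | ⟨a, rfl⟩)
    · exact hXF a c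
    · exact hYF a c
    · exact hvF a
  have h1 := trdeg_le_card (T ∪ U) hF hd
  have h2 : (T ∪ U).card ≤ T.card + U.card := Finset.card_union_le _ _
  rw [hn] at hT
  omega

end HR.K42
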